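import Mathlib

/-! Counting lemma for one sample: the proportion of `k`-sets that finish the separation is
monotone in `k` as long as `2 * k + 1 ≤ n`. -/

open Finset

namespace Pool.Agent.Lib.MP_c9564b_pr

variable {C : Type} [Fintype C] [DecidableEq C]

/-- `A` contains the forced points and separates the points of every `r`-class. -/
def Good (F : Set C) (r : C → C → Prop) (A : Finset C) : Prop :=
  (∀ c ∈ F, c ∈ A) ∧ ∀ c c', r c c' → (c ∈ A ↔ c' ∈ A) → c = c'

omit [Fintype C] in
lemma half_le (r : C → C → Prop) (hr : Equivalence r) (Q : Finset C)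
    (hQ : ∀ c, c ∈ Q ↔ ∃ c', c' ≠ c ∧ r c c') (P : C → Prop) [DecidablePred P]
    (hA : ∀ c c', r c c' → (P c ↔ P c') → c = c') :
    #(Q.filter P) ≤ #(Q.filter fun c => ¬ P c) := by
  classical
  have h : ∀ c, ∃ c', c ∈ Q → c' ≠ c ∧ r c c' := by
    intro c
    by_cases hc : c ∈ Q
    · obtain ⟨c', h1⟩ := (hQ c).1 hc
      exact ⟨c', fun _ => h1⟩
    · exact ⟨c, fun h => absurd h hc⟩
  choose g hg using h
  apply Finset.card_le_card_of_injOn g
  · intro c hc
    simp only [coe_filter, Set.mem_ofPred_eq] at hc ⊢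
    obtain ⟨h1, h2⟩ := hg c hc.1
    refine ⟨(hQ _).2 ⟨c, h1.symm, hr.symm h2⟩, fun h3 => h1 ?_⟩
    exact (hA c _ h2 ⟨fun _ => h3, fun _ => hc.2⟩).symm
  · intro c hc c' hc' hcc
    simp only [coe_filter, Set.mem_ofPred_eq] at hc hc'
    apply hA c c' _ ⟨fun _ => hc'.2, fun _ => hc.2⟩
    exact hr.trans (hg c hc.1).2 (hcc ▸ hr.symm (hg c' hc'.1).2)

omit [Fintype C] in
lemma two_mul_inter (F : Set C) (r : C → C → Prop) (hr : Equivalence r) (Q : Finset C)
    (hQ : ∀ c, c ∈ Q ↔ ∃ c', c' ≠ c ∧ r c c') (A : Finset C) (hA : Good F r A) :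
    2 * #(Q.filter fun c => c ∈ A) = #Q ∧ 2 * #(Q.filter fun c => c ∉ A) = #Q := by
  have h1 := half_le r hr Q hQ (fun c => c ∈ A) hA.2
  have h2 := half_le r hr Q hQ (fun c => c ∉ A)
    (fun c c' h h' => hA.2 c c' h (not_iff_not.1 h'))
  simp only [not_not] at h2
  have h3 := Finset.card_filter_add_card_filter_not (s := Q) (fun c => c ∈ A)
  omega

lemma step (F : Set C) (r : C → C → Prop) (hr : Equivalence r) (k : ℕ)
    (hk : 2 * k + 1 ≤ Fintype.card C) [DecidablePred (Good F r)] :
    #((powersetCard k univ).filter (Good F r)) * (Fintype.card C - k) ≤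
      #((powersetCard (k + 1) univ).filter (Good F r)) * (k + 1) := by
  classical
  set n := Fintype.card C with hn
  set Q : Finset C := univ.filter fun c => ∃ c', c' ≠ c ∧ r c c' with hQdef
  have hQ : ∀ c, c ∈ Q ↔ ∃ c', c' ≠ c ∧ r c c' := by intro c; simp [hQdef]
  set s := (powersetCard k (univ : Finset C)).filter (Good F r) with hs
  set t := (powersetCard (k + 1) (univ : Finset C)).filter (Good F r) with ht
  rcases s.eq_empty_or_nonempty with h0 | ⟨A₀, hA₀⟩
  · simp [h0]
  have hA₀' := mem_filter.1 hA₀
  have hcard₀ : #A₀ = k := (mem_powersetCard.1 hA₀'.1).2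
  set a := #(Q.filter fun c => c ∈ A₀) with ha
  have hqa : 2 * a = #Q := (two_mul_inter F r hr Q hQ A₀ hA₀'.2).1
  have hak : a ≤ k := by
    rw [← hcard₀]
    apply card_le_card
    intro c hc
    exact (mem_filter.1 hc).2
  have key : #s * (n - k - a) ≤ #t * (k + 1 - a) := by
    apply Finset.card_mul_le_card_mul (fun A B => ∃ c, c ∉ Q ∧ c ∉ A ∧ B = insert c A)
    · intro A hA
      have hA' := mem_filter.1 hA
      have hcard : #A = k := (mem_powersetCard.1 hA'.1).2
      have h2 := (two_mul_inter F r hr Q hQ A hA'.2).2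
      have h3 : n - k - a ≤ #(univ.filter fun c => c ∉ Q ∧ c ∉ A) := by
        have h4 := Finset.card_filter_add_card_filter_not (s := Aᶜ) (fun c => c ∈ Q)
        have h5 : #(Aᶜ) = n - k := by rw [card_compl, hcard]
        have h6 : (Aᶜ.filter fun c => c ∈ Q) = Q.filter fun c => c ∉ A := by
          ext c; simp [and_comm]
        have h7 : (Aᶜ.filter fun c => ¬ c ∈ Q) = univ.filter fun c => c ∉ Q ∧ c ∉ A := by
          ext c; simp [and_comm]
        rw [h6, h7, h5] at h4
        omega
      refine h3.trans ?_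
      apply Finset.card_le_card_of_injOn (fun c => insert c A)
      · intro c hc
        simp only [coe_filter, mem_univ, true_and, Set.mem_ofPred_eq] at hc
        simp only [mem_coe, mem_bipartiteAbove]
        refine ⟨mem_filter.2 ⟨mem_powersetCard.2 ⟨subset_univ _, ?_⟩, ?_, ?_⟩, c, hc.1, hc.2, rfl⟩
        · rw [card_insert_of_notMem hc.2, hcard]
        · intro x hx
          exact mem_insert_of_mem (hA'.2.1 x hx)
        · intro x y hxy hiff
          by_contra hne
          have hx : x ≠ c := by
            rintro rfl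
            exact hc.1 ((hQ _).2 ⟨y, Ne.symm hne, hxy⟩)
          have hy : y ≠ c := by
            rintro rfl
            exact hc.1 ((hQ _).2 ⟨x, hne, hr.symm hxy⟩)
          apply hne
          apply hA'.2.2 x y hxy
          simpa [hx, hy] using hiff
      · intro c hc c' hc' hcc
        simp only [coe_filter, mem_univ, true_and, Set.mem_ofPred_eq] at hc hc'
        have : c ∈ insert c' A := by
          have h8 : insert c A = insert c' A := hcc
          rw [← h8]; exact mem_insert_self _ _
        rcases mem_insert.1 this with h | h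
        · exact h
        · exact absurd h hc.2
    · intro B hB
      have hB' := mem_filter.1 hB
      have hcard : #B = k + 1 := (mem_powersetCard.1 hB'.1).2
      have h2 := (two_mul_inter F r hr Q hQ B hB'.2).1
      have h3 : #(B.filter fun c => c ∉ Q) ≤ k + 1 - a := by
        have h4 := Finset.card_filter_add_card_filter_not (s := B) (fun c => c ∈ Q)
        have h6 : (B.filter fun c => c ∈ Q) = Q.filter fun c => c ∈ B := by
          ext c; simp [and_comm]
        rw [h6, hcard] at h4
        omega
      refine le_trans ?_ h3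
      refine le_trans (card_le_card (t := (B.filter fun c => c ∉ Q).image fun c => B.erase c) ?_)
        card_image_le
      intro A hA
      obtain ⟨-, c, hc1, hc2, rfl⟩ := (mem_bipartiteBelow _).1 hA
      refine mem_image.2 ⟨c, mem_filter.2 ⟨mem_insert_self _ _, hc1⟩, ?_⟩
      exact erase_insert hc2
  obtain ⟨u, hu⟩ : ∃ u, n = 2 * k + 1 + u := ⟨n - (2 * k + 1), by omega⟩
  obtain ⟨b, hb⟩ : ∃ b, k = a + b := ⟨k - a, by omega⟩
  have e1 : n - k - a = b + 1 + u := by omega
  have e2 : k + 1 - a = b + 1 := by omega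
  have e3 : n - k = a + b + 1 + u := by omega
  rw [e1, e2] at key
  rw [e3, hb]
  have hpos : 0 < b + 1 + u := by omega
  apply Nat.le_of_mul_le_mul_right _ hpos
  calc #s * (a + b + 1 + u) * (b + 1 + u) = (#s * (b + 1 + u)) * (a + b + 1 + u) := by ring
    _ ≤ (#t * (b + 1)) * (a + b + 1 + u) := Nat.mul_le_mul_right _ key
    _ = #t * ((b + 1) * (a + b + 1 + u)) := by ring
    _ ≤ #t * ((a + b + 1) * (b + 1 + u)) := by
        apply Nat.mul_le_mul_left
        nlinarith [Nat.zero_le (a * u)]
    _ = #t * (a + b + 1) * (b + 1 + u) := by ring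

lemma step_choose (F : Set C) (r : C → C → Prop) (hr : Equivalence r) (k : ℕ)
    (hk : 2 * k + 1 ≤ Fintype.card C) [DecidablePred (Good F r)] :
    #((powersetCard k univ).filter (Good F r)) * (Fintype.card C).choose (k + 1) ≤
      #((powersetCard (k + 1) univ).filter (Good F r)) * (Fintype.card C).choose k := by
  have h := step F r hr k hk
  have h2 := Nat.choose_succ_right_eq (Fintype.card C) k
  apply Nat.le_of_mul_le_mul_right _ (Nat.add_one_pos k)
  calc #((powersetCard k univ).filter (Good F r)) * (Fintype.card C).choose (k + 1) * (k + 1)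
      = #((powersetCard k univ).filter (Good F r)) * ((Fintype.card C).choose (k + 1) * (k + 1)) := by
        ring
    _ = (#((powersetCard k univ).filter (Good F r)) * (Fintype.card C - k)) *
          (Fintype.card C).choose k := by rw [h2]; ring
    _ ≤ (#((powersetCard (k + 1) univ).filter (Good F r)) * (k + 1)) *
          (Fintype.card C).choose k := Nat.mul_le_mul_right _ h
    _ = _ := by ring

end Pool.Agent.Lib.MP_c9564b_pr
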